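import Pool.Agent.X227.TD.Idx

set_option autoImplicit false

/-! The stack machine on Polish notation, and the reduction of the theory to the omega-jump. -/

namespace Pool.Agent.X227.TD

open Encodable
open Nat.Partrec (Code)
open Pool.Agent.Helper227 Pool.Agent.H685R3

/-! ### Folds of computable functions -/

theorem computable_foldr {α σ : Type*} [Primcodable α] [Primcodable σ] {h : α → σ → σ}
    (hh : Computable₂ h) (s0 : σ) : Computable fun l : List α => l.foldr h s0 := by
  have h1 : Computable fun l : List α => Nat.rec (motive := fun _ => σ) s0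
      (fun n IH => Option.casesOn (l[l.length - 1 - n]?) IH (fun a => h a IH)) l.length := by
    refine Computable.nat_rec (f := fun l : List α => l.length) (g := fun _ => s0)
      (h := fun (l : List α) (p : ℕ × σ) =>
        (Option.casesOn (l[l.length - 1 - p.1]?) p.2 (fun a => h a p.2) : σ))
      Computable.list_length (Computable.const s0) ?_
    refine Computable.option_casesOn (o := fun x : List α × (ℕ × σ) =>
      x.1[x.1.length - 1 - x.2.1]?) (f := fun x => x.2.2) (g := fun x a => h a x.2.2) ?_ ?_ ?_
    · refine Computable.list_getElem?.comp Computable.fst ?_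
      exact (Primrec.nat_sub.comp (Primrec.nat_sub.comp (Primrec.list_length.comp Primrec.fst)
        (Primrec.const 1)) (Primrec.fst.comp Primrec.snd)).to_comp
    · exact Computable.snd.comp Computable.snd
    · exact hh.comp Computable.snd (Computable.snd.comp (Computable.snd.comp Computable.fst))
  refine h1.of_eq fun l => ?_
  have key : ∀ n ≤ l.length, Nat.rec (motive := fun _ => σ) s0
      (fun n IH => Option.casesOn (l[l.length - 1 - n]?) IH (fun a => h a IH)) n =
      (l.drop (l.length - n)).foldr h s0 := by
    intro n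
    induction n with
    | zero => intro _; simp
    | succ n ih =>
      intro hn
      have h2 : l.length - (n + 1) < l.length := by omega
      have h3 : l.length - 1 - n = l.length - (n + 1) := by omega
      have h4 : l.length - n = l.length - (n + 1) + 1 := by omega
      have h5 := ih (by omega)
      simp only at h5 ⊢
      rw [h5, h3, List.getElem?_eq_getElem h2, h4]
      conv_rhs => rw [List.drop_eq_getElem_cons h2]
      rfl
  have := key l.length le_rfl
  simp only at this
  rw [this, Nat.sub_self]
  rfl

theorem computable_cnt {S : Sig} (hS : S.IsComputable) : Computable (cnt S) := by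
  refine computable_foldr (h := cstep S) ?_ (some 0)
  refine Computable.sumCasesOn (f := fun x : Sym × Option ℕ => x.1) Computable.fst ?_ ?_
  · refine Computable.option_map (Computable.snd.comp Computable.fst) ?_
    exact (Computable.succ.comp Computable.snd)
  · refine Computable.option_bind (hS.2.comp Computable.snd) ?_
    refine Computable.option_bind (Computable.snd.comp (Computable.fst.comp Computable.fst)) ?_
    have h1 : Primrec fun x : (((Sym × Option ℕ) × ℕ) × ℕ) × ℕ => x.1.2 :=
      Primrec.snd.comp Primrec.fst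
    have h2 : Primrec fun x : (((Sym × Option ℕ) × ℕ) × ℕ) × ℕ => x.2 := Primrec.snd
    exact (Primrec.ite (Primrec.nat_le.comp h1 h2) (Primrec.option_some.comp
      (Primrec.succ.comp (Primrec.nat_sub.comp h2 h1))) (Primrec.const none)).to_comp

theorem s1_eq_some {α : Type*} [Primcodable α] {f g : α → Option ℕ} (hf : Computable f)
    (hg : Computable g) : S1 fun a => f a = g a :=
  S1.comp_computable (p := fun x : Option ℕ × Option ℕ => x.1 = x.2)
    (S1.of_prim (Primrec.eq.comp Primrec.fst Primrec.snd)) (hf.pair hg)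

theorem s1_atomOK {S : Sig} (hS : S.IsComputable) : S1 fun p : ℕ × List Sym => atomOK S p := by
  refine S1.or (S1.and (S1.of_prim (Primrec.eq.comp Primrec.fst (Primrec.const 0))) ?_) ?_
  · exact s1_eq_some ((computable_cnt hS).comp Computable.snd) (Computable.const (some 2))
  · refine S1.ex (p := fun (p : ℕ × List Sym) (r : ℕ) =>
      ∃ k, p.1 = r + 1 ∧ S.rel r = some k ∧ cnt S p.2 = some k) ?_
    refine S1.ex (p := fun (x : (ℕ × List Sym) × ℕ) (k : ℕ) =>
      x.1.1 = x.2 + 1 ∧ S.rel x.2 = some k ∧ cnt S x.1.2 = some k)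
      (S1.and (S1.of_prim ?_) (S1.and ?_ ?_))
    · exact Primrec.eq.comp (Primrec.fst.comp (Primrec.fst.comp Primrec.fst))
        (Primrec.succ.comp (Primrec.snd.comp Primrec.fst))
    · exact s1_eq_some (hS.1.comp (Computable.snd.comp Computable.fst))
        (Computable.option_some.comp Computable.snd)
    · exact s1_eq_some ((computable_cnt hS).comp (Computable.snd.comp (Computable.fst.comp
        Computable.fst))) (Computable.option_some.comp Computable.snd)

/-! ### Parsing -/

/-- one step of the parser -/
def pstep (t : Tok) (o : Option (List Fm)) : Option (List Fm) := o.bind fun st =>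
  if t.1 = 0 then some (Fm.atom t.2.1 t.2.2 :: st)
  else if t = (1, 0, []) ∧ 1 ≤ st.length then
    some (Fm.neg (st.getD 0 (Fm.atom 0 [])) :: st.drop 1)
  else if t = (2, 0, []) ∧ 2 ≤ st.length then
    some (Fm.and (st.getD 0 (Fm.atom 0 [])) (st.getD 1 (Fm.atom 0 [])) :: st.drop 2)
  else if (t.1 = 3 ∧ t.2.2 = []) ∧ 1 ≤ st.length then
    some (Fm.ex t.2.1 (st.getD 0 (Fm.atom 0 [])) :: st.drop 1)
  else none

/-- the parser -/
def parse (L : List Tok) : Option (List Fm) := L.foldr pstep (some [])

theorem foldr_pstep (φ : Fm) : ∀ (L : List Tok) (o : Option (List Fm)),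
    (φ.toks ++ L).foldr pstep o = (L.foldr pstep o).map fun st => φ :: st := by
  induction φ with
  | atom r w =>
    intro L o
    simp only [Fm.toks, List.cons_append, List.nil_append, List.foldr_cons]
    cases L.foldr pstep o <;> simp [pstep]
  | neg φ ih =>
    intro L o
    simp only [Fm.toks, List.cons_append, List.foldr_cons, ih]
    cases L.foldr pstep o <;> simp [pstep]
  | and φ ψ ih1 ih2 =>
    intro L o
    simp only [Fm.toks, List.cons_append, List.foldr_cons, List.append_assoc, ih1, ih2]
    cases L.foldr pstep o <;> simp [pstep]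
  | ex i φ ih =>
    intro L o
    simp only [Fm.toks, List.cons_append, List.foldr_cons, ih]
    cases L.foldr pstep o <;> simp [pstep]

theorem parse_toks (φ : Fm) : parse φ.toks = some [φ] := by
  have := foldr_pstep φ [] (some [])
  rw [List.append_nil] at this
  unfold parse
  rw [this]
  rfl

theorem parse_sound : ∀ (L : List Tok) (st : List Fm), parse L = some st →
    L = st.flatMap Fm.toks := by
  intro L
  induction L with
  | nil =>
    intro st h
    have : st = [] := by
      unfold parse at h
      simpa using h.symm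
    subst this
    rfl
  | cons t L ih =>
    intro st h
    have h0 : pstep t (parse L) = some st := h
    cases hp : parse L with
    | none => rw [hp] at h0; simp [pstep] at h0
    | some st0 =>
      have hL := ih st0 hp
      rw [hp] at h0
      simp only [pstep, Option.bind_some] at h0
      obtain ⟨t1, t2, t3⟩ := t
      split_ifs at h0 with c1 c2 c3 c4
      · simp only at c1
        subst c1
        simp only [Option.some.injEq] at h0
        rw [← h0, hL]
        simp [Fm.toks]
      · rcases st0 with _ | ⟨x, st0⟩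
        · simp at c2
        · simp only [Option.some.injEq] at h0
          rw [← h0, hL, c2.1]
          simp [Fm.toks]
      · rcases st0 with _ | ⟨x, _ | ⟨y, st0⟩⟩
        · simp at c3
        · simp at c3
        · simp only [Option.some.injEq] at h0
          rw [← h0, hL, c3.1]
          simp [Fm.toks]
      · rcases st0 with _ | ⟨x, st0⟩
        · simp at c4
        · simp only [Option.some.injEq] at h0
          obtain ⟨⟨rfl, rfl⟩, -⟩ := c4
          rw [← h0, hL]
          simp [Fm.toks]

/-- one step of the computation of the free variables -/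
def fstep (t : Tok) (o : Option (List (List ℕ))) : Option (List (List ℕ)) := o.bind fun st =>
  if t.1 = 0 then some (vars t.2.2 :: st)
  else if t = (1, 0, []) ∧ 1 ≤ st.length then some (st.getD 0 [] :: st.drop 1)
  else if t = (2, 0, []) ∧ 2 ≤ st.length then
    some ((st.getD 0 [] ++ st.getD 1 []) :: st.drop 2)
  else if (t.1 = 3 ∧ t.2.2 = []) ∧ 1 ≤ st.length then
    some (((st.getD 0 []).filter fun j => j ≠ t.2.1) :: st.drop 1)
  else none

/-- the free variables -/
def fvs (L : List Tok) : Option (List (List ℕ)) := L.foldr fstep (some [])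

theorem fvs_eq (L : List Tok) : fvs L = (parse L).map fun st => st.map Fm.fv := by
  induction L with
  | nil => rfl
  | cons t L ih =>
    have h1 : fvs (t :: L) = fstep t (fvs L) := rfl
    have h2 : parse (t :: L) = pstep t (parse L) := rfl
    rw [h1, h2, ih]
    cases parse L with
    | none => rfl
    | some st =>
      simp only [pstep, fstep, Option.map_some, Option.bind_some, List.length_map]
      split_ifs with c1 c2 c3 c4
      · rfl
      · rcases st with _ | ⟨x, st⟩
        · simp at c2
        · simp [Fm.fv]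
      · rcases st with _ | ⟨x, _ | ⟨y, st⟩⟩
        · simp at c3
        · simp at c3
        · simp [Fm.fv]
      · rcases st with _ | ⟨x, st⟩
        · simp at c4
        · simp [Fm.fv]
      · rfl

theorem WF_iff (S : Sig) (φ : Fm) : φ.WF S ↔ ∀ t ∈ φ.toks, t.1 = 0 → atomOK S t.2 := by
  induction φ with
  | atom r w => simp [Fm.WF, Fm.toks]
  | neg φ ih => simp [Fm.WF, Fm.toks, ih]
  | and φ ψ ih1 ih2 =>
    simp only [Fm.WF, Fm.toks, ih1, ih2, List.mem_cons, List.mem_append]
    constructor
    · rintro ⟨h1, h2⟩ t (rfl | h | h) h3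
      · simp at h3
      · exact h1 t h h3
      · exact h2 t h h3
    · intro h
      exact ⟨fun t ht => h t (Or.inr (Or.inl ht)), fun t ht => h t (Or.inr (Or.inr ht))⟩
  | ex i φ ih => simp [Fm.WF, Fm.toks, ih]

/-- the number is the Gödel number of a sentence -/
def Guard (S : Sig) (n : ℕ) : Prop := ∃ φ : Fm, φ.code = n ∧ φ.WF S ∧ φ.fv = []

theorem Guard_iff (S : Sig) (n : ℕ) : Guard S n ↔ ∃ L : List Tok,
    (encode L = n ∧ fvs L = some [[]]) ∧ ∀ t ∈ L, (¬ t.1 = 0) ∨ atomOK S t.2 := by
  constructor
  · rintro ⟨φ, h1, h2, h3⟩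
    refine ⟨φ.toks, ⟨h1, ?_⟩, ?_⟩
    · rw [fvs_eq, parse_toks]
      simp [h3]
    · intro t ht
      by_cases h4 : t.1 = 0
      · exact Or.inr ((WF_iff S φ).1 h2 t ht h4)
      · exact Or.inl h4
  · rintro ⟨L, ⟨h1, h2⟩, h3⟩
    rw [fvs_eq] at h2
    cases hp : parse L with
    | none => rw [hp] at h2; cases h2
    | some st =>
      rw [hp] at h2
      simp only [Option.map_some, Option.some.injEq] at h2
      rcases st with _ | ⟨φ, _ | ⟨ψ, st⟩⟩
      · simp at h2
      · have hL := parse_sound L _ hp
        simp only [List.flatMap_cons, List.flatMap_nil, List.append_nil] at hL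
        simp only [List.map_cons, List.map_nil, List.cons.injEq, and_true] at h2
        refine ⟨φ, ?_, ?_, h2⟩
        · unfold Fm.code
          rw [← hL, h1]
        · rw [WF_iff, ← hL]
          intro t ht h4
          rcases h3 t ht with h5 | h5
          · exact absurd h4 h5
          · exact h5
      · simp at h2

theorem primrec_vars : Primrec vars := by
  refine Primrec.listFilterMap (f := fun w : List Sym => w)
    (g := fun _ s => Sum.casesOn s some fun _ => none) Primrec.id ?_
  exact Primrec.sumCasesOn Primrec.snd (Primrec.option_some.comp Primrec.snd)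
    (Primrec.const none)

theorem primrec_filter_ne : Primrec fun x : List ℕ × ℕ => x.1.filter fun j => j ≠ x.2 := by
  have h : Primrec fun x : List ℕ × ℕ => x.1.filterMap fun j => if j = x.2 then none else some j := by
    refine Primrec.listFilterMap (f := fun x : List ℕ × ℕ => x.1)
      (g := fun x j => if j = x.2 then none else some j) Primrec.fst ?_
    exact Primrec.ite (Primrec.eq.comp Primrec.snd (Primrec.snd.comp Primrec.fst))
      (Primrec.const none) (Primrec.option_some.comp Primrec.snd)
  refine h.of_eq fun x => ?_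
  obtain ⟨l, i⟩ := x
  induction l with
  | nil => rfl
  | cons a l ih =>
    simp only at ih ⊢
    by_cases ha : a = i
    · simp [ha, List.filterMap_cons] at ih ⊢
      exact ih
    · simp [ha, List.filterMap_cons] at ih ⊢
      exact ih

theorem primrec_fvs : Primrec fvs := by
  refine Primrec.list_foldr (f := fun L : List Tok => L) (g := fun _ => some [])
    (h := fun _ p => fstep p.1 p.2) Primrec.id (Primrec.const _) ?_
  refine Primrec.option_bind (f := fun x : List Tok × (Tok × Option (List (List ℕ))) => x.2.2)
    (Primrec.snd.comp Primrec.snd) ?_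
  have t : Primrec fun x : (List Tok × (Tok × Option (List (List ℕ)))) × List (List ℕ) =>
      x.1.2.1 := Primrec.fst.comp (Primrec.snd.comp Primrec.fst)
  have st : Primrec fun x : (List Tok × (Tok × Option (List (List ℕ)))) × List (List ℕ) =>
      x.2 := Primrec.snd
  have len : Primrec fun x : (List Tok × (Tok × Option (List (List ℕ)))) × List (List ℕ) =>
      x.2.length := Primrec.list_length.comp st
  have g0 : Primrec fun x : (List Tok × (Tok × Option (List (List ℕ)))) × List (List ℕ) =>
      x.2.getD 0 [] := (Primrec.list_getD ([] : List ℕ)).comp st (Primrec.const 0)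
  have g1 : Primrec fun x : (List Tok × (Tok × Option (List (List ℕ)))) × List (List ℕ) =>
      x.2.getD 1 [] := (Primrec.list_getD ([] : List ℕ)).comp st (Primrec.const 1)
  have d1 : Primrec fun x : (List Tok × (Tok × Option (List (List ℕ)))) × List (List ℕ) =>
      x.2.drop 1 := Primrec.list_drop.comp (Primrec.const 1) st
  have d2 : Primrec fun x : (List Tok × (Tok × Option (List (List ℕ)))) × List (List ℕ) =>
      x.2.drop 2 := Primrec.list_drop.comp (Primrec.const 2) st
  refine Primrec.ite (Primrec.eq.comp (Primrec.fst.comp t) (Primrec.const 0)) ?_ ?_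
  · exact Primrec.option_some.comp (Primrec.list_cons.comp (primrec_vars.comp (Primrec.snd.comp
      (Primrec.snd.comp t))) st)
  refine Primrec.ite (PrimrecPred.and (Primrec.eq.comp t (Primrec.const (1, 0, [])))
    (Primrec.nat_le.comp (Primrec.const 1) len)) ?_ ?_
  · exact Primrec.option_some.comp (Primrec.list_cons.comp g0 d1)
  refine Primrec.ite (PrimrecPred.and (Primrec.eq.comp t (Primrec.const (2, 0, [])))
    (Primrec.nat_le.comp (Primrec.const 2) len)) ?_ ?_
  · exact Primrec.option_some.comp (Primrec.list_cons.comp (Primrec.list_append.comp g0 g1) d2)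
  refine Primrec.ite (PrimrecPred.and (PrimrecPred.and (Primrec.eq.comp (Primrec.fst.comp t)
    (Primrec.const 3)) (Primrec.eq.comp (Primrec.snd.comp (Primrec.snd.comp t))
      (Primrec.const []))) (Primrec.nat_le.comp (Primrec.const 1) len)) ?_ (Primrec.const none)
  exact Primrec.option_some.comp (Primrec.list_cons.comp (primrec_filter_ne.comp (g0.pair
    (Primrec.fst.comp (Primrec.snd.comp t)))) d1)

theorem s1_Guard {S : Sig} (hS : S.IsComputable) : S1 (Guard S) := by
  have h : S1 fun n : ℕ => ∃ L : List Tok,
      (encode L = n ∧ fvs L = some [[]]) ∧ ∀ t ∈ L, (¬ t.1 = 0) ∨ atomOK S t.2 := by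
    refine S1.ex (p := fun (n : ℕ) (L : List Tok) =>
      (encode L = n ∧ fvs L = some [[]]) ∧ ∀ t ∈ L, (¬ t.1 = 0) ∨ atomOK S t.2)
      (S1.and (S1.of_prim (PrimrecPred.and ?_ ?_)) ?_)
    · exact Primrec.eq.comp (Primrec.encode.comp Primrec.snd) Primrec.fst
    · exact Primrec.eq.comp (primrec_fvs.comp Primrec.snd) (Primrec.const _)
    · refine S1.all_mem (p := fun (x : ℕ × List Tok) (t : Tok) => (¬ t.1 = 0) ∨ atomOK S t.2)
        (f := fun x => x.2) (S1.or (S1.of_prim ?_) ?_) Primrec.snd
      · exact (Primrec.eq.comp (Primrec.fst.comp Primrec.snd) (Primrec.const 0)).not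
      · exact (s1_atomOK hS).comp (f := fun x : (ℕ × List Tok) × Tok => x.2.2)
          (Primrec.snd.comp Primrec.snd)
  exact h.of_eq fun n => (Guard_iff S n).symm

/-! ### Indices -/

section idx

variable (atC : ℕ × List Sym → Code) (negC : Code → Code) (exC : ℕ × Code → Code)
  (andC : (ℕ × Code) × (ℕ × Code) → Code)

/-- rank and index of a formula -/
def rc : Fm → ℕ × Code
  | .atom r w => (1, atC (r, w))
  | .neg φ => ((rc φ).1 + 1, negC (rc φ).2)
  | .and φ ψ => (max (rc φ).1 (rc ψ).1 + 1, andC (rc φ, rc ψ))
  | .ex i φ => ((rc φ).1 + 1, exC (i, (rc φ).2))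

/-- the step of the stack machine -/
def istep (t : Tok) (st : List (ℕ × Code)) : List (ℕ × Code) :=
  if t.1 = 0 then (1, atC t.2) :: st
  else if t.1 = 1 then
    ((st.getD 0 (0, Code.zero)).1 + 1, negC (st.getD 0 (0, Code.zero)).2) :: st.drop 1
  else if t.1 = 2 then
    (max (st.getD 0 (0, Code.zero)).1 (st.getD 1 (0, Code.zero)).1 + 1,
      andC (st.getD 0 (0, Code.zero), st.getD 1 (0, Code.zero))) :: st.drop 2
  else ((st.getD 0 (0, Code.zero)).1 + 1, exC (t.2.1, (st.getD 0 (0, Code.zero)).2)) :: st.drop 1

theorem foldr_istep (φ : Fm) : ∀ (L : List Tok) (st : List (ℕ × Code)),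
    (φ.toks ++ L).foldr (istep atC negC exC andC) st =
      rc atC negC exC andC φ :: L.foldr (istep atC negC exC andC) st := by
  induction φ with
  | atom r w =>
    intro L st
    simp [Fm.toks, istep, rc]
  | neg φ ih =>
    intro L st
    simp only [Fm.toks, List.cons_append, List.foldr_cons, ih]
    simp [istep, rc]
  | and φ ψ ih1 ih2 =>
    intro L st
    simp only [Fm.toks, List.cons_append, List.foldr_cons, List.append_assoc, ih1, ih2]
    simp [istep, rc]
  | ex i φ ih =>
    intro L st
    simp only [Fm.toks, List.cons_append, List.foldr_cons, ih]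
    simp [istep, rc]

theorem primrec_foldr_istep (h1 : Primrec atC) (h2 : Primrec negC) (h3 : Primrec exC)
    (h4 : Primrec andC) :
    Primrec fun L : List Tok => L.foldr (istep atC negC exC andC) [] := by
  refine Primrec.list_foldr (f := fun L : List Tok => L) (g := fun _ => [])
    (h := fun _ p => istep atC negC exC andC p.1 p.2) Primrec.id (Primrec.const _) ?_
  have t : Primrec fun x : List Tok × (Tok × List (ℕ × Code)) => x.2.1 :=
    Primrec.fst.comp Primrec.snd
  have st : Primrec fun x : List Tok × (Tok × List (ℕ × Code)) => x.2.2 :=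
    Primrec.snd.comp Primrec.snd
  have g0 : Primrec fun x : List Tok × (Tok × List (ℕ × Code)) =>
      x.2.2.getD 0 (0, Code.zero) := (Primrec.list_getD (0, Code.zero)).comp st (Primrec.const 0)
  have g1 : Primrec fun x : List Tok × (Tok × List (ℕ × Code)) =>
      x.2.2.getD 1 (0, Code.zero) := (Primrec.list_getD (0, Code.zero)).comp st (Primrec.const 1)
  have d1 : Primrec fun x : List Tok × (Tok × List (ℕ × Code)) => x.2.2.drop 1 :=
    Primrec.list_drop.comp (Primrec.const 1) st
  have d2 : Primrec fun x : List Tok × (Tok × List (ℕ × Code)) => x.2.2.drop 2 :=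
    Primrec.list_drop.comp (Primrec.const 2) st
  refine Primrec.ite (Primrec.eq.comp (Primrec.fst.comp t) (Primrec.const 0)) ?_ ?_
  · exact Primrec.list_cons.comp ((Primrec.const 1).pair (h1.comp (Primrec.snd.comp t))) st
  refine Primrec.ite (Primrec.eq.comp (Primrec.fst.comp t) (Primrec.const 1)) ?_ ?_
  · exact Primrec.list_cons.comp ((Primrec.succ.comp (Primrec.fst.comp g0)).pair
      (h2.comp (Primrec.snd.comp g0))) d1
  refine Primrec.ite (Primrec.eq.comp (Primrec.fst.comp t) (Primrec.const 2)) ?_ ?_
  · exact Primrec.list_cons.comp ((Primrec.succ.comp (Primrec.nat_max.comp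
      (Primrec.fst.comp g0) (Primrec.fst.comp g1))).pair (h4.comp (g0.pair g1))) d2
  · exact Primrec.list_cons.comp ((Primrec.succ.comp (Primrec.fst.comp g0)).pair
      (h3.comp ((Primrec.fst.comp (Primrec.snd.comp t)).pair (Primrec.snd.comp g0)))) d1

end idx

/-- The theory of a computable structure is reducible to the omega-jump by a partial computable
function. -/
theorem theory_le {S : Sig} (hS : S.IsComputable) (A : Str S) (hA : A.IsComputable)
    (u : ℕ → Bool) : ∃ f : ℕ →. ℕ, Nat.Partrec f ∧
      ∀ n, theory A n = true ↔ ∃ y, y ∈ f n ∧ om u y = true := by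
  obtain ⟨d, hd⟩ := A.nonempty
  obtain ⟨atC, p1, e1⟩ := exists_atC A hA d
  obtain ⟨negC, p2, e2⟩ := exists_negC
  obtain ⟨exC, p3, e3⟩ := exists_exC A hA
  obtain ⟨andC, p4, e4⟩ := exists_andC u
  -- correctness of the indices
  have key : ∀ φ : Fm, φ.WF S → ∀ l : List (ℕ × ℕ), (∀ p ∈ l, p.2 ∈ A.dom) →
      Ix (rc atC negC exC andC φ).2 (jn u (rc atC negC exC andC φ).1) l
        (Sat A φ (asg d l)) := by
    intro φ
    induction φ with
    | atom r w =>
      intro h l hl
      have h5 := e1 (r, w) l u
      obtain ⟨y, hy, h6⟩ := h5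
      refine ⟨y, hy, ?_⟩
      have h7 := atomTrue_iff A (asg d l) (asg_dom A hd l hl) r w h
      exact h7.trans h6
    | neg φ ih =>
      intro h l hl
      exact e2 _ _ _ _ (ih h l hl)
    | and φ ψ ih1 ih2 =>
      intro h l hl
      exact e4 _ _ _ _ _ (ih1 h.1 l hl) (ih2 h.2 l hl)
    | ex i φ ih =>
      intro h l hl
      refine e3 i _ l _ (fun a => Sat A φ (Function.update (asg d l) i a)) fun a ha => ?_
      have h5 := ih h ((i, a) :: l) (by
        intro p hp
        rcases List.mem_cons.1 hp with rfl | hp
        · exact ha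
        · exact hl p hp)
      rw [asg_cons] at h5
      exact h5
  let F : ℕ → ℕ × Code := fun n =>
    ((((decode (α := List Tok) n).getD []).foldr (istep atC negC exC andC) []).getD 0
      (0, Code.zero))
  have hF : Primrec F := by
    refine (Primrec.list_getD (0, Code.zero)).comp ((primrec_foldr_istep atC negC exC andC p1 p2
      p3 p4).comp (Primrec.option_getD.comp Primrec.decode (Primrec.const []))) (Primrec.const 0)
  have hFc : ∀ φ : Fm, F φ.code = rc atC negC exC andC φ := by
    intro φ
    have h5 := foldr_istep atC negC exC andC φ [] []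
    rw [List.append_nil] at h5
    simp only [F, Fm.code, encodek, Option.getD_some, h5]
    rfl
  let f : ℕ →. ℕ := fun n => (Part.assert (Guard S n) fun _ => Part.some ()).bind fun _ =>
    ((F n).2.eval (encode ([] : List (ℕ × ℕ)))).map fun y => Nat.pair (F n).1 y
  have hf : Partrec f := by
    refine Partrec.bind (s1_Guard hS).re ?_
    have hF1 : Computable fun x : ℕ × Unit => (F x.1).1 :=
      (Primrec.fst.comp (hF.comp Primrec.fst)).to_comp
    have hF2 : Computable fun x : ℕ × Unit => (F x.1).2 :=
      (Primrec.snd.comp (hF.comp Primrec.fst)).to_comp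
    refine Partrec.map (Code.eval_part.comp hF2 (Computable.const _)) ?_
    exact Primrec₂.natPair.to_comp.comp (hF1.comp Computable.fst) Computable.snd
  refine ⟨f, Partrec.nat_iff.1 hf, fun n => ?_⟩
  have hmem : ∀ z, z ∈ f n ↔ Guard S n ∧ ∃ y, y ∈ (F n).2.eval (encode ([] : List (ℕ × ℕ))) ∧
      Nat.pair (F n).1 y = z := by
    intro z
    simp only [f, Part.mem_bind_iff, Part.mem_assert_iff, Part.mem_map_iff, Part.mem_some_iff]
    constructor
    · rintro ⟨-, ⟨h, -⟩, h2⟩
      exact ⟨h, h2⟩
    · rintro ⟨h, h2⟩
      exact ⟨(), ⟨h, trivial⟩, h2⟩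
  have htrue : ∀ φ : Fm, φ.WF S → φ.fv = [] →
      ((∀ v : ℕ → ℕ, (∀ i, v i ∈ A.dom) → Sat A φ v) ↔
        ∃ y, y ∈ (F φ.code).2.eval (encode ([] : List (ℕ × ℕ))) ∧
          om u (Nat.pair (F φ.code).1 y) = true) := by
    intro φ hw hv
    obtain ⟨y, hy, h5⟩ := key φ hw [] (by simp)
    rw [hFc]
    constructor
    · intro h6
      refine ⟨y, hy, ?_⟩
      rw [om_pair]
      exact h5.1 (h6 _ (asg_dom A hd [] (by simp)))
    · rintro ⟨y', hy', h6⟩ v hvd
      rw [om_pair, Part.mem_unique hy' hy] at h6
      refine (Sat_congr A φ v (asg d []) ?_).2 (h5.2 h6)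
      rw [hv]
      simp
  have hth : theory A n = true ↔ ∃ φ : Fm, φ.code = n ∧ φ.WF S ∧ φ.fv = [] ∧
      ∀ v : ℕ → ℕ, (∀ i, v i ∈ A.dom) → Sat A φ v := by
    simp [theory]
  rw [hth]
  constructor
  · rintro ⟨φ, rfl, hw, hv, h6⟩
    obtain ⟨y, hy, h7⟩ := (htrue φ hw hv).1 h6
    exact ⟨_, (hmem _).2 ⟨⟨φ, rfl, hw, hv⟩, y, hy, rfl⟩, h7⟩
  · rintro ⟨z, hz, h7⟩
    obtain ⟨⟨φ, rfl, hw, hv⟩, y, hy, rfl⟩ := (hmem z).1 hz
    exact ⟨φ, rfl, hw, hv, (htrue φ hw hv).2 ⟨y, hy, h7⟩⟩

end Pool.Agent.X227.TD
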