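import Pool.Agent.X227.TD.Syn

set_option autoImplicit false

/-! The theory of a computable structure is many-one reducible to the omega-jump. -/

namespace Pool.Agent.X227.TD

open Encodable
open Nat.Partrec (Code)
open Pool.Agent.Helper227 Pool.Agent.H685R3

/-- assignments coded by association lists -/
def asg (d : ℕ) (l : List (ℕ × ℕ)) (i : ℕ) : ℕ :=
  l.foldr (fun p acc => if p.1 = i then p.2 else acc) d

theorem asg_cons (d : ℕ) (l : List (ℕ × ℕ)) (i a : ℕ) :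
    asg d ((i, a) :: l) = Function.update (asg d l) i a := by
  ext j
  by_cases h : j = i
  · subst h; simp [asg]
  · rw [Function.update_of_ne h]
    simp only [asg, List.foldr_cons]
    rw [if_neg (fun h' => h h'.symm)]

theorem primrec_asg (d : ℕ) : Primrec fun x : List (ℕ × ℕ) × ℕ => asg d x.1 x.2 := by
  refine Primrec.list_foldr (f := fun x : List (ℕ × ℕ) × ℕ => x.1) (g := fun _ => d)
    (h := fun (x : List (ℕ × ℕ) × ℕ) (q : (ℕ × ℕ) × ℕ) => if q.1.1 = x.2 then q.1.2 else q.2)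
    Primrec.fst (Primrec.const d) ?_
  refine Primrec.ite (Primrec.eq.comp ?_ ?_) ?_ ?_
  · exact Primrec.fst.comp (Primrec.fst.comp Primrec.snd)
  · exact Primrec.snd.comp Primrec.fst
  · exact Primrec.snd.comp (Primrec.fst.comp Primrec.snd)
  · exact Primrec.snd.comp Primrec.snd

theorem asg_dom {S : Sig} (A : Str S) {d : ℕ} (hd : d ∈ A.dom) (l : List (ℕ × ℕ))
    (hl : ∀ p ∈ l, p.2 ∈ A.dom) (i : ℕ) : asg d l i ∈ A.dom := by
  induction l with
  | nil => exact hd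
  | cons p l ih =>
    simp only [asg, List.foldr_cons]
    split
    · exact hl p (by simp)
    · exact ih fun q hq => hl q (by simp [hq])

/-- s-m-n -/
theorem smn {α β : Type*} [Primcodable α] [Primcodable β] {g : β × α → ℕ} (hg : Primrec g) :
    ∃ s : β → Code, Primrec s ∧ ∀ b a, g (b, a) ∈ (s b).eval (encode a) := by
  have h1 : Primrec fun n : ℕ => ((decode (α := β × α) n).map g).getD 0 :=
    Primrec.option_getD.comp (Primrec.option_map Primrec.decode (hg.comp Primrec.snd))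
      (Primrec.const 0)
  obtain ⟨cg, hcg⟩ := Code.exists_code.1 (Nat.Partrec.of_primrec (Primrec.nat_iff.1 h1))
  refine ⟨fun c => Code.curry cg (encode c),
    Code.primrec₂_curry.comp (Primrec.const cg) Primrec.encode, fun c a => ?_⟩
  rw [Code.eval_curry, hcg]
  have h2 : Nat.pair (encode c) (encode a) = encode (c, a) := rfl
  rw [h2]
  simp

theorem exists_lift : ∃ lf : ℕ → ℕ, Primrec lf ∧ ∀ (B : ℕ → Bool) (y : ℕ),
    B y = true ↔ jump B (lf y) = true := by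
  have h : US fun B (y : ℕ) => B y = true :=
    US.query.comp (f := fun y : ℕ => (y, true)) (Primrec.id.pair (Primrec.const true))
  exact h.to_jump

theorem jn_lift {lf : ℕ → ℕ} (h : ∀ (B : ℕ → Bool) (y : ℕ), B y = true ↔ jump B (lf y) = true)
    (u : ℕ → Bool) (k m y : ℕ) : jn u k y = true ↔ jn u (k + m) (lf^[m] y) = true := by
  induction m with
  | zero => rfl
  | succ m ih =>
    rw [ih, h, Function.iterate_succ_apply']
    rfl

/-- there is an index -/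
def Ix (c : Code) (B : ℕ → Bool) (l : List (ℕ × ℕ)) (P : Prop) : Prop :=
  ∃ y, y ∈ c.eval (encode l) ∧ (P ↔ B y = true)

section ops

variable {S : Sig} (A : Str S)

theorem exists_atC (hA : A.IsComputable) (d : ℕ) : ∃ s : ℕ × List Sym → Code, Primrec s ∧
    ∀ p l B, Ix (s p) (jump B) l ((p.1, p.2.map (sb (asg d l))) ∈ atDiag A) := by
  have h1 : US fun (_ : ℕ → Bool) (x : (ℕ × List Sym) × List (ℕ × ℕ)) =>
      (x.1.1, x.1.2.map (sb (asg d x.2))) ∈ atDiag A := by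
    refine US.of_s1 ((S1.of_re hA.2.to_re).comp (f := fun x : (ℕ × List Sym) × List (ℕ × ℕ) =>
      (x.1.1, x.1.2.map (sb (asg d x.2)))) ?_)
    refine (Primrec.fst.comp Primrec.fst).pair (Primrec.list_map (Primrec.snd.comp Primrec.fst) ?_)
    refine Primrec.sumCasesOn Primrec.snd (Primrec.sumInl.comp ?_) (Primrec.sumInr.comp
      Primrec.snd)
    exact (primrec_asg d).comp ((Primrec.snd.comp (Primrec.fst.comp Primrec.fst)).pair Primrec.snd)
  obtain ⟨f, hf, ef⟩ := h1.to_jump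
  obtain ⟨s, hs, es⟩ := smn hf
  exact ⟨s, hs, fun p l B => ⟨_, es p l, ef B (p, l)⟩⟩

theorem exists_negC : ∃ s : Code → Code, Primrec s ∧
    ∀ c l B P, Ix c B l P → Ix (s c) (jump B) l (¬ P) := by
  have h1 : US fun (B : ℕ → Bool) (x : Code × List (ℕ × ℕ)) =>
      ∃ y, y ∈ x.1.eval (encode x.2) ∧ B y = false := by
    refine US.ex (p := fun (B : ℕ → Bool) (x : Code × List (ℕ × ℕ)) (y : ℕ) =>
      y ∈ x.1.eval (encode x.2) ∧ B y = false) (US.and (US.of_s1 ?_) ?_)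
    · exact s1_graph.comp (f := fun x : (Code × List (ℕ × ℕ)) × ℕ => ((x.1.1, encode x.1.2), x.2))
        (((Primrec.fst.comp Primrec.fst).pair (Primrec.encode.comp
          (Primrec.snd.comp Primrec.fst))).pair Primrec.snd)
    · exact US.query.comp (f := fun x : (Code × List (ℕ × ℕ)) × ℕ => (x.2, false))
        (Primrec.snd.pair (Primrec.const false))
  obtain ⟨f, hf, ef⟩ := h1.to_jump
  obtain ⟨s, hs, es⟩ := smn hf
  refine ⟨s, hs, fun c l B P ⟨y, hy, h⟩ => ⟨_, es c l, ?_⟩⟩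
  rw [← ef B (c, l), h]
  constructor
  · intro h2
    exact ⟨y, hy, by simpa using h2⟩
  · rintro ⟨y', hy', h2⟩ h3
    rw [Part.mem_unique hy hy', h2] at h3
    cases h3

theorem exists_exC (hA : A.IsComputable) : ∃ s : ℕ × Code → Code, Primrec s ∧
    ∀ i c l B (P : ℕ → Prop), (∀ a ∈ A.dom, Ix c B ((i, a) :: l) (P a)) →
      Ix (s (i, c)) (jump B) l (∃ a ∈ A.dom, P a) := by
  have h1 : US fun (B : ℕ → Bool) (x : (ℕ × Code) × List (ℕ × ℕ)) =>
      ∃ a, a ∈ A.dom ∧ ∃ y, y ∈ x.1.2.eval (encode ((x.1.1, a) :: x.2)) ∧ B y = true := by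
    refine US.ex (p := fun (B : ℕ → Bool) (x : (ℕ × Code) × List (ℕ × ℕ)) (a : ℕ) =>
      a ∈ A.dom ∧ ∃ y, y ∈ x.1.2.eval (encode ((x.1.1, a) :: x.2)) ∧ B y = true)
      (US.and (US.of_s1 ((S1.of_re hA.1.to_re).comp Primrec.snd)) ?_)
    refine US.ex (p := fun (B : ℕ → Bool) (x : ((ℕ × Code) × List (ℕ × ℕ)) × ℕ) (y : ℕ) =>
      y ∈ x.1.1.2.eval (encode ((x.1.1.1, x.2) :: x.1.2)) ∧ B y = true)
      (US.and (US.of_s1 ?_) ?_)
    · refine s1_graph.comp (f := fun x : (((ℕ × Code) × List (ℕ × ℕ)) × ℕ) × ℕ =>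
        ((x.1.1.1.2, encode ((x.1.1.1.1, x.1.2) :: x.1.1.2)), x.2)) ?_
      have g1 : Primrec fun x : (((ℕ × Code) × List (ℕ × ℕ)) × ℕ) × ℕ => x.1.1.1 :=
        Primrec.fst.comp (Primrec.fst.comp Primrec.fst)
      refine Primrec.pair (Primrec.pair (Primrec.snd.comp g1) (Primrec.encode.comp
        (Primrec.list_cons.comp ((Primrec.fst.comp g1).pair (Primrec.snd.comp Primrec.fst))
          (Primrec.snd.comp (Primrec.fst.comp Primrec.fst))))) Primrec.snd
    · exact US.query.comp (f := fun x : (((ℕ × Code) × List (ℕ × ℕ)) × ℕ) × ℕ => (x.2, true))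
        (Primrec.snd.pair (Primrec.const true))
  obtain ⟨f, hf, ef⟩ := h1.to_jump
  obtain ⟨s, hs, es⟩ := smn hf
  refine ⟨s, hs, fun i c l B P h => ⟨_, es (i, c) l, ?_⟩⟩
  rw [← ef B ((i, c), l)]
  refine exists_congr fun a => and_congr_right fun ha => ?_
  obtain ⟨y, hy, h2⟩ := h a ha
  rw [h2]
  constructor
  · intro h3
    exact ⟨y, hy, h3⟩
  · rintro ⟨y', hy', h3⟩
    rwa [Part.mem_unique hy hy']

theorem exists_andC (u : ℕ → Bool) : ∃ s : (ℕ × Code) × (ℕ × Code) → Code, Primrec s ∧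
    ∀ (x y : ℕ × Code) l P Q, Ix x.2 (jn u x.1) l P → Ix y.2 (jn u y.1) l Q →
      Ix (s (x, y)) (jn u (max x.1 y.1 + 1)) l (P ∧ Q) := by
  obtain ⟨lf, hlf, elf⟩ := exists_lift
  have hit : Primrec fun z : ℕ × ℕ => lf^[z.1] z.2 :=
    Primrec.nat_iterate (f := fun z : ℕ × ℕ => z.1) (g := fun z => z.2)
      (h := fun _ c => lf c) Primrec.fst Primrec.snd (hlf.comp Primrec.snd)
  have h0 : US fun (B : ℕ → Bool) (x : (Code × ℕ) × List (ℕ × ℕ)) =>
      ∃ y, y ∈ x.1.1.eval (encode x.2) ∧ B (lf^[x.1.2] y) = true := by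
    refine US.ex (p := fun (B : ℕ → Bool) (x : (Code × ℕ) × List (ℕ × ℕ)) (y : ℕ) =>
      y ∈ x.1.1.eval (encode x.2) ∧ B (lf^[x.1.2] y) = true) (US.and (US.of_s1 ?_) ?_)
    · exact s1_graph.comp (f := fun x : ((Code × ℕ) × List (ℕ × ℕ)) × ℕ =>
        ((x.1.1.1, encode x.1.2), x.2))
        (((Primrec.fst.comp (Primrec.fst.comp Primrec.fst)).pair (Primrec.encode.comp
          (Primrec.snd.comp Primrec.fst))).pair Primrec.snd)
    · exact US.query.comp (f := fun x : ((Code × ℕ) × List (ℕ × ℕ)) × ℕ =>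
        (lf^[x.1.1.2] x.2, true)) ((hit.comp ((Primrec.snd.comp (Primrec.fst.comp
          Primrec.fst)).pair Primrec.snd)).pair (Primrec.const true))
  have h1 : US fun (B : ℕ → Bool) (x : ((ℕ × Code) × (ℕ × Code)) × List (ℕ × ℕ)) =>
      (∃ y, y ∈ x.1.1.2.eval (encode x.2) ∧
        B (lf^[max x.1.1.1 x.1.2.1 - x.1.1.1] y) = true) ∧
      (∃ y, y ∈ x.1.2.2.eval (encode x.2) ∧
        B (lf^[max x.1.1.1 x.1.2.1 - x.1.2.1] y) = true) := by
    have a1 : Primrec fun x : ((ℕ × Code) × (ℕ × Code)) × List (ℕ × ℕ) => x.1.1.1 :=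
      Primrec.fst.comp (Primrec.fst.comp Primrec.fst)
    have a2 : Primrec fun x : ((ℕ × Code) × (ℕ × Code)) × List (ℕ × ℕ) => x.1.2.1 :=
      Primrec.fst.comp (Primrec.snd.comp Primrec.fst)
    have c1 : Primrec fun x : ((ℕ × Code) × (ℕ × Code)) × List (ℕ × ℕ) => x.1.1.2 :=
      Primrec.snd.comp (Primrec.fst.comp Primrec.fst)
    have c2 : Primrec fun x : ((ℕ × Code) × (ℕ × Code)) × List (ℕ × ℕ) => x.1.2.2 :=
      Primrec.snd.comp (Primrec.snd.comp Primrec.fst)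
    have m : Primrec fun x : ((ℕ × Code) × (ℕ × Code)) × List (ℕ × ℕ) => max x.1.1.1 x.1.2.1 :=
      Primrec.nat_max.comp a1 a2
    refine US.and ?_ ?_
    · exact h0.comp (f := fun x : ((ℕ × Code) × (ℕ × Code)) × List (ℕ × ℕ) =>
        ((x.1.1.2, max x.1.1.1 x.1.2.1 - x.1.1.1), x.2))
        ((c1.pair (Primrec.nat_sub.comp m a1)).pair Primrec.snd)
    · exact h0.comp (f := fun x : ((ℕ × Code) × (ℕ × Code)) × List (ℕ × ℕ) =>
        ((x.1.2.2, max x.1.1.1 x.1.2.1 - x.1.2.1), x.2))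
        ((c2.pair (Primrec.nat_sub.comp m a2)).pair Primrec.snd)
  obtain ⟨f, hf, ef⟩ := h1.to_jump
  obtain ⟨s, hs, es⟩ := smn hf
  refine ⟨s, hs, ?_⟩
  rintro ⟨k1, d1⟩ ⟨k2, d2⟩ l P Q ⟨y1, hy1, e1⟩ ⟨y2, hy2, e2⟩
  refine ⟨_, es _ l, ?_⟩
  have key := ef (jn u (max k1 k2)) (((k1, d1), (k2, d2)), l)
  change _ ↔ jump (jn u (max k1 k2)) (f (((k1, d1), (k2, d2)), l)) = true
  rw [← key]
  simp only at hy1 hy2 e1 e2 ⊢
  have j1 : P ↔ jn u (max k1 k2) (lf^[max k1 k2 - k1] y1) = true := by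
    rw [e1, jn_lift elf u k1 (max k1 k2 - k1) y1]
    have : k1 + (max k1 k2 - k1) = max k1 k2 := by omega
    rw [this]
  have j2 : Q ↔ jn u (max k1 k2) (lf^[max k1 k2 - k2] y2) = true := by
    rw [e2, jn_lift elf u k2 (max k1 k2 - k2) y2]
    have : k2 + (max k1 k2 - k2) = max k1 k2 := by omega
    rw [this]
  rw [j1, j2]
  constructor
  · rintro ⟨a, b⟩
    exact ⟨⟨y1, hy1, a⟩, ⟨y2, hy2, b⟩⟩
  · rintro ⟨⟨y1', hy1', a⟩, ⟨y2', hy2', b⟩⟩
    rw [Part.mem_unique hy1 hy1', Part.mem_unique hy2 hy2']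
    exact ⟨a, b⟩

end ops

end Pool.Agent.X227.TD
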