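import Pool.Agent.H685R3.Om

set_option autoImplicit false

/-! A set computable from an oracle above the halting problem which is not Turing equivalent to any
set which is reducible to the oracle by a partial computable many-one reduction. -/

namespace Pool.Agent.X227.TD

open Encodable
open Nat.Partrec (Code)
open Pool.Agent.Helper227 Pool.Agent.H685R3

/-- the `j`-th computably enumerable relation on strings, numbers, values -/
def GG (j : ℕ) (z : List Bool × ℕ × Bool) : Prop :=
  ((Denumerable.ofNat Code j).eval (encode z)).Dom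

/-- `w` is a splitting above the string -/
def Split (a : ℕ × List Bool) (w : ℕ × List Bool × List Bool) : Prop :=
  (a.2 <+: w.2.1 ∧ a.2 <+: w.2.2) ∧ GG a.1 (w.2.1, w.1, true) ∧ GG a.1 (w.2.2, w.1, false)

/-- the number codes a splitting -/
def SplitN (a : ℕ × List Bool) (k : ℕ) : Prop :=
  ∃ w : ℕ × List Bool × List Bool, decode k = some w ∧ Split a w

/-- the set reducible to the oracle by the `e`-th partial computable function -/
def XO (O : ℕ → Bool) (e x : ℕ) : Prop :=
  ∃ y, y ∈ (Denumerable.ofNat Code e).eval x ∧ O y = true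

/-- the string after the first half of the stage -/
def Mid (O : ℕ → Bool) (s : ℕ) (σ τ : List Bool) : Prop :=
  (∃ k : ℕ, ∃ w : ℕ × List Bool × List Bool, (decode k = some w ∧ Split (s.unpair.2, σ) w) ∧
    (∀ k' < k, ¬ SplitN (s.unpair.2, σ) k') ∧
    ((XO O s.unpair.1 w.1 ∧ τ = w.2.2) ∨ (¬ XO O s.unpair.1 w.1 ∧ τ = w.2.1))) ∨
  ((¬ ∃ k, SplitN (s.unpair.2, σ) k) ∧ τ = σ)

/-- the `s`-th program says yes at `n` -/
def Yes (s n : ℕ) : Prop := 1 ∈ (Denumerable.ofNat Code s).eval n

/-- the string after the stage -/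
def Step (O : ℕ → Bool) (s : ℕ) (σ ρ : List Bool) : Prop :=
  ∃ τ, Mid O s σ τ ∧ ((Yes s τ.length ∧ ρ = τ ++ [false]) ∨ (¬ Yes s τ.length ∧ ρ = τ ++ [true]))

theorem Mid.pfx {O : ℕ → Bool} {s : ℕ} {σ τ : List Bool} (h : Mid O s σ τ) : σ <+: τ := by
  rcases h with ⟨k, w, ⟨-, h1, -⟩, -, h2 | h2⟩ | ⟨-, rfl⟩
  · rw [h2.2]; exact h1.2
  · rw [h2.2]; exact h1.1
  · exact List.prefix_rfl

theorem Mid.exists (O : ℕ → Bool) (s : ℕ) (σ : List Bool) : ∃ τ, Mid O s σ τ := by
  classical
  by_cases h : ∃ k, SplitN (s.unpair.2, σ) k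
  · obtain ⟨w, h1, h2⟩ := Nat.find_spec h
    by_cases hx : XO O s.unpair.1 w.1
    · exact ⟨w.2.2, Or.inl ⟨Nat.find h, w, ⟨h1, h2⟩, fun k' hk' => Nat.find_min h hk',
        Or.inl ⟨hx, rfl⟩⟩⟩
    · exact ⟨w.2.1, Or.inl ⟨Nat.find h, w, ⟨h1, h2⟩, fun k' hk' => Nat.find_min h hk',
        Or.inr ⟨hx, rfl⟩⟩⟩
  · exact ⟨σ, Or.inr ⟨h, rfl⟩⟩

theorem Mid.unique {O : ℕ → Bool} {s : ℕ} {σ τ τ' : List Bool} (h : Mid O s σ τ)
    (h' : Mid O s σ τ') : τ = τ' := by
  rcases h with ⟨k, w, ⟨h1, h2⟩, h3, h4⟩ | ⟨h1, h2⟩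
  · rcases h' with ⟨k', w', ⟨h1', h2'⟩, h3', h4'⟩ | ⟨h1', h2'⟩
    · have hk : k = k' := by
        by_contra hne
        rcases Nat.lt_or_gt_of_ne hne with hlt | hlt
        · exact h3' k hlt ⟨w, h1, h2⟩
        · exact h3 k' hlt ⟨w', h1', h2'⟩
      subst hk
      have hw : w = w' := by
        rw [h1] at h1'
        exact Option.some.inj h1'
      subst hw
      rcases h4 with ⟨a, rfl⟩ | ⟨a, rfl⟩
      · rcases h4' with ⟨b, rfl⟩ | ⟨b, rfl⟩
        · rfl
        · exact absurd a b
      · rcases h4' with ⟨b, rfl⟩ | ⟨b, rfl⟩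
        · exact absurd b a
        · rfl
    · exact absurd ⟨k, w, h1, h2⟩ h1'
  · rcases h' with ⟨k', w', ⟨h1', h2'⟩, h3', h4'⟩ | ⟨h1', h2'⟩
    · exact absurd ⟨k', w', h1', h2'⟩ h1
    · rw [h2, h2']

theorem Step.exists (O : ℕ → Bool) (s : ℕ) (σ : List Bool) : ∃ ρ, Step O s σ ρ := by
  obtain ⟨τ, hτ⟩ := Mid.exists O s σ
  by_cases h : Yes s τ.length
  · exact ⟨_, τ, hτ, Or.inl ⟨h, rfl⟩⟩
  · exact ⟨_, τ, hτ, Or.inr ⟨h, rfl⟩⟩

theorem Step.unique {O : ℕ → Bool} {s : ℕ} {σ ρ ρ' : List Bool} (h : Step O s σ ρ)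
    (h' : Step O s σ ρ') : ρ = ρ' := by
  obtain ⟨τ, h1, h2⟩ := h
  obtain ⟨τ', h1', h2'⟩ := h'
  obtain rfl := h1.unique h1'
  rcases h2 with ⟨a, rfl⟩ | ⟨a, rfl⟩
  · rcases h2' with ⟨b, rfl⟩ | ⟨b, rfl⟩
    · rfl
    · exact absurd a b
  · rcases h2' with ⟨b, rfl⟩ | ⟨b, rfl⟩
    · exact absurd b a
    · rfl

/-- the sequence of strings -/
noncomputable def sq (O : ℕ → Bool) : ℕ → List Bool
  | 0 => []
  | s + 1 => (Step.exists O s (sq O s)).choose

theorem sq_step (O : ℕ → Bool) (s : ℕ) : Step O s (sq O s) (sq O (s + 1)) :=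
  (Step.exists O s (sq O s)).choose_spec

theorem sq_prefix_succ (O : ℕ → Bool) (s : ℕ) :
    sq O s <+: sq O (s + 1) ∧ (sq O s).length + 1 ≤ (sq O (s + 1)).length := by
  obtain ⟨τ, h1, h2⟩ := sq_step O s
  have h3 := h1.pfx
  have h4 : ∃ b, sq O (s + 1) = τ ++ [b] := by
    rcases h2 with ⟨-, h⟩ | ⟨-, h⟩
    · exact ⟨_, h⟩
    · exact ⟨_, h⟩
  obtain ⟨b, hb⟩ := h4
  rw [hb]
  refine ⟨h3.trans (List.prefix_append _ _), ?_⟩
  have := h3.length_le
  simp only [List.length_append, List.length_singleton]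
  omega

theorem sq_prefix (O : ℕ → Bool) {s t : ℕ} (h : s ≤ t) : sq O s <+: sq O t := by
  obtain ⟨k, rfl⟩ := Nat.exists_eq_add_of_le h
  induction k with
  | zero => exact List.prefix_rfl
  | succ k ih => exact (ih (by omega)).trans (sq_prefix_succ O _).1

theorem sq_length (O : ℕ → Bool) (s : ℕ) : s ≤ (sq O s).length := by
  induction s with
  | zero => omega
  | succ s ih => have := (sq_prefix_succ O s).2; omega

/-- the set constructed -/
noncomputable def DD (O : ℕ → Bool) (n : ℕ) : Bool := (sq O (n + 1)).getD n false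

theorem sq_getD (O : ℕ → Bool) {s n : ℕ} (h : n < (sq O s).length) :
    (sq O s).getD n false = DD O n := by
  have hn : n < (sq O (n + 1)).length := lt_of_lt_of_le (Nat.lt_succ_self n) (sq_length _ _)
  unfold DD
  rcases Nat.le_total s (n + 1) with hle | hle
  · obtain ⟨ρ, hρ⟩ := sq_prefix O hle
    rw [← hρ]
    simp [List.getD, List.getElem?_append_left h]
  · obtain ⟨ρ, hρ⟩ := sq_prefix O hle
    rw [← hρ]
    simp [List.getD, List.getElem?_append_left hn]

theorem sq_eq_pre (O : ℕ → Bool) (s : ℕ) : sq O s = pre (DD O) (sq O s).length := by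
  refine List.ext_getElem (by simp) fun i h1 h2 => ?_
  rw [getElem_pre, ← sq_getD O h1]
  simp [h1]

section complexity

variable {O : ℕ → Bool}

theorem not_s1 (hO : TLe (jump fun _ => false) O) {α : Type*} [Primcodable α] {p : α → Prop}
    (hp : S1 p) : SI O fun a => ¬ p a :=
  ((SI.of_s1 (B := fun _ => false) hp).decide_jump.2).trans hO

theorem s1_GG : S1 fun x : ℕ × (List Bool × ℕ × Bool) => GG x.1 x.2 :=
  s1_eval.comp (f := fun x : ℕ × (List Bool × ℕ × Bool) =>
    (Denumerable.ofNat Code x.1, encode x.2))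
    (((Primrec.ofNat Code).comp Primrec.fst).pair (Primrec.encode.comp Primrec.snd))

theorem prim_prefix {α : Type*} [Primcodable α] {f g : α → List Bool} (hf : Primrec f)
    (hg : Primrec g) : PrimrecPred fun a => f a <+: g a := by
  refine (Primrec.eq.comp hf (Primrec.list_take.comp (Primrec.list_length.comp hf) hg)).of_eq
    fun a => ?_
  exact List.prefix_iff_eq_take.symm

theorem s1_Split : S1 fun x : (ℕ × List Bool) × (ℕ × List Bool × List Bool) =>
    Split x.1 x.2 := by
  refine S1.and (S1.of_prim (PrimrecPred.and ?_ ?_)) (S1.and ?_ ?_)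
  · exact prim_prefix (Primrec.snd.comp Primrec.fst)
      (Primrec.fst.comp (Primrec.snd.comp Primrec.snd))
  · exact prim_prefix (Primrec.snd.comp Primrec.fst)
      (Primrec.snd.comp (Primrec.snd.comp Primrec.snd))
  · exact s1_GG.comp (f := fun x : (ℕ × List Bool) × (ℕ × List Bool × List Bool) =>
      (x.1.1, (x.2.2.1, x.2.1, true))) ((Primrec.fst.comp Primrec.fst).pair
        ((Primrec.fst.comp (Primrec.snd.comp Primrec.snd)).pair
          ((Primrec.fst.comp Primrec.snd).pair (Primrec.const true))))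
  · exact s1_GG.comp (f := fun x : (ℕ × List Bool) × (ℕ × List Bool × List Bool) =>
      (x.1.1, (x.2.2.2, x.2.1, false))) ((Primrec.fst.comp Primrec.fst).pair
        ((Primrec.snd.comp (Primrec.snd.comp Primrec.snd)).pair
          ((Primrec.fst.comp Primrec.snd).pair (Primrec.const false))))

theorem s1_SplitN : S1 fun x : (ℕ × List Bool) × ℕ => SplitN x.1 x.2 := by
  refine S1.ex (p := fun (x : (ℕ × List Bool) × ℕ) (w : ℕ × List Bool × List Bool) =>
    decode x.2 = some w ∧ Split x.1 w) (S1.and (S1.of_prim ?_) ?_)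
  · exact Primrec.eq.comp (Primrec.decode.comp (Primrec.snd.comp Primrec.fst))
      (Primrec.option_some.comp Primrec.snd)
  · exact s1_Split.comp (f := fun x : ((ℕ × List Bool) × ℕ) × (ℕ × List Bool × List Bool) =>
      (x.1.1, x.2)) ((Primrec.fst.comp Primrec.fst).pair Primrec.snd)

theorem s1_evalN : S1 fun x : (ℕ × ℕ) × ℕ => x.2 ∈ (Denumerable.ofNat Code x.1.1).eval x.1.2 :=
  s1_graph.comp (f := fun x : (ℕ × ℕ) × ℕ => ((Denumerable.ofNat Code x.1.1, x.1.2), x.2))
    ((((Primrec.ofNat Code).comp (Primrec.fst.comp Primrec.fst)).pair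
      (Primrec.snd.comp Primrec.fst)).pair Primrec.snd)

theorem si_XO (hO : TLe (jump fun _ => false) O) : (SI O fun x : ℕ × ℕ => XO O x.1 x.2) ∧
    SI O fun x : ℕ × ℕ => ¬ XO O x.1 x.2 := by
  have key : ∀ b : Bool, SI O fun x : ℕ × ℕ =>
      ∃ y, y ∈ (Denumerable.ofNat Code x.1).eval x.2 ∧ O y = b := by
    intro b
    refine SI.ex (p := fun (x : ℕ × ℕ) (y : ℕ) =>
      y ∈ (Denumerable.ofNat Code x.1).eval x.2 ∧ O y = b) (SI.and (SI.of_s1 s1_evalN) ?_)
    exact SI.query.comp (f := fun x : (ℕ × ℕ) × ℕ => (x.2, b)) (Primrec.snd.pair (Primrec.const b))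
  refine ⟨key true, ?_⟩
  have h1 : S1 fun x : ℕ × ℕ => ∃ y, y ∈ (Denumerable.ofNat Code x.1).eval x.2 :=
    S1.ex (p := fun (x : ℕ × ℕ) (y : ℕ) => y ∈ (Denumerable.ofNat Code x.1).eval x.2) s1_evalN
  refine (SI.or (not_s1 hO h1) (key false)).of_eq fun x => ?_
  unfold XO
  constructor
  · rintro (h | ⟨y, h2, h3⟩) ⟨y', h4, h5⟩
    · exact h ⟨y', h4⟩
    · rw [Part.mem_unique h2 h4, h5] at h3
      cases h3
  · intro h
    by_cases h2 : ∃ y, y ∈ (Denumerable.ofNat Code x.1).eval x.2
    · obtain ⟨y, hy⟩ := h2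
      right
      refine ⟨y, hy, ?_⟩
      by_contra h3
      exact h ⟨y, hy, by simpa using h3⟩
    · exact Or.inl h2

theorem si_Mid (hO : TLe (jump fun _ => false) O) :
    SI O fun x : (ℕ × List Bool) × List Bool => Mid O x.1.1 x.1.2 x.2 := by
  have hu1 : Primrec fun x : (ℕ × List Bool) × List Bool => x.1.1.unpair.1 :=
    Primrec.fst.comp (Primrec.unpair.comp (Primrec.fst.comp Primrec.fst))
  have ha : Primrec fun x : (ℕ × List Bool) × List Bool => (x.1.1.unpair.2, x.1.2) :=
    (Primrec.snd.comp (Primrec.unpair.comp (Primrec.fst.comp Primrec.fst))).pair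
      (Primrec.snd.comp Primrec.fst)
  refine SI.or ?_ (SI.and ?_ (SI.of_prim ?_))
  · refine SI.ex (p := fun (x : (ℕ × List Bool) × List Bool) (k : ℕ) =>
      ∃ w : ℕ × List Bool × List Bool, (decode k = some w ∧ Split (x.1.1.unpair.2, x.1.2) w) ∧
      (∀ k' < k, ¬ SplitN (x.1.1.unpair.2, x.1.2) k') ∧
      ((XO O x.1.1.unpair.1 w.1 ∧ x.2 = w.2.2) ∨ (¬ XO O x.1.1.unpair.1 w.1 ∧ x.2 = w.2.1))) ?_
    refine SI.ex (p := fun (x : ((ℕ × List Bool) × List Bool) × ℕ)
      (w : ℕ × List Bool × List Bool) =>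
      (decode x.2 = some w ∧ Split (x.1.1.1.unpair.2, x.1.1.2) w) ∧
      (∀ k' < x.2, ¬ SplitN (x.1.1.1.unpair.2, x.1.1.2) k') ∧
      ((XO O x.1.1.1.unpair.1 w.1 ∧ x.1.2 = w.2.2) ∨
        (¬ XO O x.1.1.1.unpair.1 w.1 ∧ x.1.2 = w.2.1))) ?_
    refine SI.and (SI.and (SI.of_prim ?_) (SI.of_s1 ?_)) (SI.and ?_ (SI.or (SI.and ?_
      (SI.of_prim ?_)) (SI.and ?_ (SI.of_prim ?_))))
    · exact Primrec.eq.comp (Primrec.decode.comp (Primrec.snd.comp Primrec.fst))
        (Primrec.option_some.comp Primrec.snd)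
    · exact s1_Split.comp (f := fun x : (((ℕ × List Bool) × List Bool) × ℕ) ×
        (ℕ × List Bool × List Bool) => ((x.1.1.1.1.unpair.2, x.1.1.1.2), x.2))
        ((ha.comp (Primrec.fst.comp Primrec.fst)).pair Primrec.snd)
    · refine SI.comp (p := fun x : ((ℕ × List Bool) × List Bool) × ℕ =>
        ∀ k' < x.2, ¬ SplitN (x.1.1.1.unpair.2, x.1.1.2) k')
        (f := fun y : (((ℕ × List Bool) × List Bool) × ℕ) × (ℕ × List Bool × List Bool) => y.1)
        ?_ Primrec.fst
      refine SI.all_lt (p := fun (x : ((ℕ × List Bool) × List Bool) × ℕ) (k' : ℕ) =>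
        ¬ SplitN (x.1.1.1.unpair.2, x.1.1.2) k') (f := fun x => x.2) ?_ Primrec.snd
      exact (not_s1 hO s1_SplitN).comp (f := fun x : (((ℕ × List Bool) × List Bool) × ℕ) × ℕ =>
        ((x.1.1.1.1.unpair.2, x.1.1.1.2), x.2))
        ((ha.comp (Primrec.fst.comp Primrec.fst)).pair Primrec.snd)
    · exact (si_XO hO).1.comp (f := fun y : (((ℕ × List Bool) × List Bool) × ℕ) ×
        (ℕ × List Bool × List Bool) => (y.1.1.1.1.unpair.1, y.2.1))
        ((hu1.comp (Primrec.fst.comp Primrec.fst)).pair (Primrec.fst.comp Primrec.snd))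
    · exact Primrec.eq.comp (Primrec.snd.comp (Primrec.fst.comp Primrec.fst))
        (Primrec.snd.comp (Primrec.snd.comp Primrec.snd))
    · exact (si_XO hO).2.comp (f := fun y : (((ℕ × List Bool) × List Bool) × ℕ) ×
        (ℕ × List Bool × List Bool) => (y.1.1.1.1.unpair.1, y.2.1))
        ((hu1.comp (Primrec.fst.comp Primrec.fst)).pair (Primrec.fst.comp Primrec.snd))
    · exact Primrec.eq.comp (Primrec.snd.comp (Primrec.fst.comp Primrec.fst))
        (Primrec.fst.comp (Primrec.snd.comp Primrec.snd))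
  · refine (not_s1 hO (S1.ex (p := fun (a : ℕ × List Bool) (k : ℕ) => SplitN a k)
      s1_SplitN)).comp (f := fun x : (ℕ × List Bool) × List Bool => (x.1.1.unpair.2, x.1.2)) ha
  · exact Primrec.eq.comp Primrec.snd (Primrec.snd.comp Primrec.fst)

theorem s1_Yes : S1 fun x : ℕ × ℕ => Yes x.1 x.2 :=
  s1_evalN.comp (f := fun x : ℕ × ℕ => (x, 1)) (Primrec.id.pair (Primrec.const 1))

theorem si_Step (hO : TLe (jump fun _ => false) O) :
    SI O fun x : (ℕ × List Bool) × List Bool => Step O x.1.1 x.1.2 x.2 := by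
  have hl : Primrec fun x : ((ℕ × List Bool) × List Bool) × List Bool =>
      (x.1.1.1, x.2.length) :=
    (Primrec.fst.comp (Primrec.fst.comp Primrec.fst)).pair (Primrec.list_length.comp Primrec.snd)
  refine SI.ex (p := fun (x : (ℕ × List Bool) × List Bool) (τ : List Bool) =>
    Mid O x.1.1 x.1.2 τ ∧ ((Yes x.1.1 τ.length ∧ x.2 = τ ++ [false]) ∨
      (¬ Yes x.1.1 τ.length ∧ x.2 = τ ++ [true]))) (SI.and ?_ (SI.or (SI.and (SI.of_s1 ?_)
        (SI.of_prim ?_)) (SI.and ?_ (SI.of_prim ?_))))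
  · exact (si_Mid hO).comp (f := fun x : ((ℕ × List Bool) × List Bool) × List Bool =>
      (x.1.1, x.2)) ((Primrec.fst.comp Primrec.fst).pair Primrec.snd)
  · exact s1_Yes.comp hl
  · exact Primrec.eq.comp (Primrec.snd.comp Primrec.fst)
      (Primrec.list_append.comp Primrec.snd (Primrec.const [false]))
  · exact (not_s1 hO s1_Yes).comp hl
  · exact Primrec.eq.comp (Primrec.snd.comp Primrec.fst)
      (Primrec.list_append.comp Primrec.snd (Primrec.const [true]))

theorem DD_iff (n : ℕ) (b : Bool) : DD O n = b ↔ ∃ L : List (List Bool), (L.getD 0 [] = [] ∧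
    (L.getD (n + 1) []).getD n false = b) ∧
    ∀ i < n + 1, Step O i (L.getD i []) (L.getD (i + 1) []) := by
  constructor
  · rintro rfl
    refine ⟨(List.range (n + 2)).map (sq O), ⟨?_, ?_⟩, ?_⟩
    · simp [List.getD, sq]
    · simp [List.getD, DD]
    · intro i hi
      have h1 : i < n + 2 := by omega
      have h2 : i + 1 < n + 2 := by omega
      have e1 : ((List.range (n + 2)).map (sq O)).getD i [] = sq O i := by
        simp [List.getD, h1]
      have e2 : ((List.range (n + 2)).map (sq O)).getD (i + 1) [] = sq O (i + 1) := by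
        simp [List.getD, h2]
      rw [e1, e2]
      exact sq_step O i
  · rintro ⟨L, ⟨h0, h1⟩, h2⟩
    have key : ∀ i ≤ n + 1, L.getD i [] = sq O i := by
      intro i
      induction i with
      | zero => intro _; rw [h0]; rfl
      | succ i ih =>
        intro hi
        have h3 := h2 i (by omega)
        rw [ih (by omega)] at h3
        exact h3.unique (sq_step O i)
    rw [key (n + 1) le_rfl] at h1
    exact h1

theorem DD_le (hO : TLe (jump fun _ => false) O) : TLe (DD O) O := by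
  rw [tLe_iff_SI]
  have h : SI O fun x : ℕ × Bool => ∃ L : List (List Bool), (L.getD 0 [] = [] ∧
    (L.getD (x.1 + 1) []).getD x.1 false = x.2) ∧
    ∀ i < x.1 + 1, Step O i (L.getD i []) (L.getD (i + 1) []) := by
    have hg := Primrec.list_getD ([] : List Bool)
    have hg' := Primrec.list_getD false
    refine SI.ex (p := fun (x : ℕ × Bool) (L : List (List Bool)) => (L.getD 0 [] = [] ∧
      (L.getD (x.1 + 1) []).getD x.1 false = x.2) ∧
      ∀ i < x.1 + 1, Step O i (L.getD i []) (L.getD (i + 1) []))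
      (SI.and (SI.of_prim (PrimrecPred.and ?_ ?_)) ?_)
    · exact Primrec.eq.comp (hg.comp Primrec.snd (Primrec.const 0)) (Primrec.const [])
    · exact Primrec.eq.comp (hg'.comp (hg.comp Primrec.snd
        (Primrec.succ.comp (Primrec.fst.comp Primrec.fst))) (Primrec.fst.comp Primrec.fst))
        (Primrec.snd.comp Primrec.fst)
    · refine SI.all_lt (p := fun (x : (ℕ × Bool) × List (List Bool)) (i : ℕ) =>
        Step O i (x.2.getD i []) (x.2.getD (i + 1) [])) (f := fun x => x.1.1 + 1) ?_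
        (Primrec.succ.comp (Primrec.fst.comp Primrec.fst))
      exact (si_Step hO).comp (f := fun x : ((ℕ × Bool) × List (List Bool)) × ℕ =>
        ((x.2, x.1.2.getD x.2 []), x.1.2.getD (x.2 + 1) []))
        ((Primrec.snd.pair (hg.comp (Primrec.snd.comp Primrec.fst) Primrec.snd)).pair
          (hg.comp (Primrec.snd.comp Primrec.fst) (Primrec.succ.comp Primrec.snd)))
  exact h.of_eq fun x => (DD_iff x.1 x.2).symm

end complexity

theorem DD_not_computable (O : ℕ → Bool) : ¬ Computable (DD O) := by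
  intro h
  have h1 : Computable fun n => (DD O n).toNat := (Primrec.dom_bool Bool.toNat).to_comp.comp h
  obtain ⟨c, hc⟩ := Code.exists_code.1 (Partrec.nat_iff.1 h1)
  obtain ⟨τ, h2, h3⟩ := sq_step O (encode c)
  have hY : Yes (encode c) τ.length ↔ DD O τ.length = true := by
    unfold Yes
    rw [Denumerable.ofNat_encode, hc]
    change 1 ∈ Part.some (DD O τ.length).toNat ↔ _
    rw [Part.mem_some_iff]
    generalize DD O τ.length = b
    cases b <;> simp
  have hval : ∀ b, sq O (encode c + 1) = τ ++ [b] → DD O τ.length = b := by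
    intro b hb
    rw [← sq_getD O (s := encode c + 1) (by rw [hb]; simp), hb]
    simp [List.getD]
  rcases h3 with ⟨a, h4⟩ | ⟨a, h4⟩
  · have := hval _ h4
    rw [hY, this] at a
    cases a
  · have := hval _ h4
    exact a (hY.2 this)

theorem computable_of_TLe {A B : ℕ → Bool} (hB : Computable B) (h : TLe A B) : Computable A := by
  have h0 : Computable fun n => (B n).toNat := (Primrec.dom_bool Bool.toNat).to_comp.comp hB
  have h1 : Nat.Partrec (chi A) := by
    refine Nat.RecursiveIn.partrec_of_oracle (O := {chi B}) ?_ (RecursiveIn.iff_nat.1 h)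
    intro g hg
    rw [Set.mem_singleton_iff] at hg
    subst hg
    exact Partrec.nat_iff.1 h0
  have h2 : Computable fun n => (A n).toNat := Partrec.nat_iff.2 h1
  have h3 : Computable fun n => decide ((A n).toNat = 1) :=
    (PrimrecPred.decide (p := fun n : ℕ => n = 1) (Primrec.eq.comp Primrec.id
      (Primrec.const 1))).to_comp.comp h2
  refine h3.of_eq fun n => ?_
  cases A n <;> simp

/-- The main property of the set. -/
theorem DD_main (O : ℕ → Bool) (X : ℕ → Bool) (f : ℕ →. ℕ) (hf : Nat.Partrec f)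
    (hX : ∀ n, X n = true ↔ ∃ y, y ∈ f n ∧ O y = true) : ¬ (TLe X (DD O) ∧ TLe (DD O) X) := by
  rintro ⟨h1, h2⟩
  obtain ⟨E, hE, mE, eE⟩ := tLe_iff.1 h1
  obtain ⟨e, he⟩ := Code.exists_code.1 hf
  obtain ⟨c, hc⟩ := Code.exists_code.1 hE.re
  have hGG : ∀ z, GG (encode c) z ↔ E z := by
    intro z
    unfold GG
    rw [Denumerable.ofNat_encode, hc]
    simp [Part.assert]
  have hXO : ∀ x, XO O (encode e) x ↔ X x = true := by
    intro x
    unfold XO
    rw [Denumerable.ofNat_encode, he, hX]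
  set s := Nat.pair (encode e) (encode c) with hs
  obtain ⟨τ, h3, h4⟩ := sq_step O s
  have hτ : τ = pre (DD O) τ.length := by
    have h5 : τ <+: sq O (s + 1) := by
      rcases h4 with ⟨-, h⟩ | ⟨-, h⟩ <;> rw [h] <;> exact List.prefix_append _ _
    rw [sq_eq_pre O (s + 1)] at h5
    exact pre_eq_of_prefix h5
  by_cases hsp : ∃ k, SplitN (encode c, sq O s) k
  · rcases h3 with ⟨k, w, ⟨h5, h6⟩, -, h8⟩ | ⟨h5, -⟩
    · simp only [hs, Nat.unpair_pair] at h6 h8
      rw [hXO] at h8
      obtain ⟨-, h9, h10⟩ := h6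
      rw [hGG] at h9 h10
      rcases h8 with ⟨a, b⟩ | ⟨a, b⟩
      · rw [← b, hτ] at h10
        have := (eE w.1 false).2 ⟨_, h10⟩
        rw [a] at this
        cases this
      · rw [← b, hτ] at h9
        have := (eE w.1 true).2 ⟨_, h9⟩
        exact a this
    · simp only [hs, Nat.unpair_pair] at h5
      exact h5 hsp
  · have hXc : Computable X := by
      apply computable_of_graph
      have h5 : S1 fun x : ℕ × Bool => ∃ ρ : List Bool, sq O s <+: ρ ∧ E (ρ, x) := by
        refine S1.ex (p := fun (x : ℕ × Bool) (ρ : List Bool) => sq O s <+: ρ ∧ E (ρ, x))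
          (S1.and (S1.of_prim (prim_prefix (Primrec.const _) Primrec.snd)) ?_)
        exact hE.comp (Primrec.snd.pair Primrec.fst)
      refine h5.of_eq fun x => ?_
      obtain ⟨x, b⟩ := x
      have hreal : ∃ ρ : List Bool, sq O s <+: ρ ∧ E (ρ, x, X x) := by
        obtain ⟨m, hm⟩ := (eE x (X x)).1 rfl
        refine ⟨pre (DD O) (max m (sq O s).length), ?_, mE _ _ _ _ (pre_prefix _
          (le_max_left _ _)) hm⟩
        conv_lhs => rw [sq_eq_pre O s]
        exact pre_prefix _ (le_max_right _ _)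
      constructor
      · rintro ⟨ρ, h6, h7⟩
        obtain ⟨ρ', h6', h7'⟩ := hreal
        by_contra hne
        apply hsp
        change X x ≠ b at hne
        cases hb : b with
        | false =>
          have hxt : X x = true := by
            rw [hb] at hne
            simpa using hne
          rw [hxt] at h7'
          rw [hb] at h7
          exact ⟨encode (x, ρ', ρ), (x, ρ', ρ), encodek _, ⟨h6', h6⟩, (hGG _).2 h7',
            (hGG _).2 h7⟩
        | true =>
          have hxt : X x = false := by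
            rw [hb] at hne
            simpa using hne
          rw [hxt] at h7'
          rw [hb] at h7
          exact ⟨encode (x, ρ, ρ'), (x, ρ, ρ'), encodek _, ⟨h6, h6'⟩, (hGG _).2 h7,
            (hGG _).2 h7'⟩
      · intro hb
        change X x = b at hb
        rw [← hb]
        exact hreal
    exact DD_not_computable O (computable_of_TLe hXc h2)

end Pool.Agent.X227.TD
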