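import Pool.Agent.X227.TD.KP

set_option autoImplicit false

/-! First-order signatures, formulas, structures on sets of natural numbers, Gödel numbers and
theories. -/

namespace Pool.Agent.X227.TD

open Encodable
open Nat.Partrec (Code)
open Pool.Agent.Helper227 Pool.Agent.H685R3

/-- A symbol in a term: `Sum.inl i` is the variable `x_i`, `Sum.inr f` is the function symbol `f`
(constants are function symbols of arity `0`). -/
abbrev Sym : Type := ℕ ⊕ ℕ

/-- A signature. The relation symbols are the numbers `r` with `rel r = some k`, and `k` is the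
arity of `r`; the function symbols are the numbers `f` with `fn f = some k`, and `k` is the arity
of `f`. -/
structure Sig where
  rel : ℕ → Option ℕ
  fn : ℕ → Option ℕ

/-- A signature is computable if its symbols and their arities are given effectively. -/
def Sig.IsComputable (S : Sig) : Prop := Computable S.rel ∧ Computable S.fn

/-- The effect of a symbol on the number of terms, for terms in Polish notation. -/
def cstep (S : Sig) (s : Sym) (c : Option ℕ) : Option ℕ :=
  Sum.casesOn s (fun _ => c.map fun m => m + 1)
    (fun f => (S.fn f).bind fun k => c.bind fun m => if k ≤ m then some (m - k + 1) else none)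

/-- `cnt S w = some m` says that the list of symbols `w` is the concatenation of `m` terms in Polish
notation: a function symbol of arity `k` is followed by its `k` arguments. -/
def cnt (S : Sig) (w : List Sym) : Option ℕ := w.foldr (cstep S) (some 0)

/-- Formulas. The formula `atom 0 w` is an equation between two terms, `atom (r + 1) w` is the
relation symbol `r` applied to terms; here `w` is the concatenation of the terms, in Polish
notation. -/
inductive Fm : Type
  | atom (r : ℕ) (w : List Sym)
  | neg (φ : Fm)
  | and (φ ψ : Fm)
  | ex (i : ℕ) (φ : Fm)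

/-- The atomic formula is well-formed. -/
def atomOK (S : Sig) (p : ℕ × List Sym) : Prop :=
  (p.1 = 0 ∧ cnt S p.2 = some 2) ∨ ∃ r k, p.1 = r + 1 ∧ S.rel r = some k ∧ cnt S p.2 = some k

/-- Well-formed formulas of the signature. -/
def Fm.WF (S : Sig) : Fm → Prop
  | .atom r w => atomOK S (r, w)
  | .neg φ => φ.WF S
  | .and φ ψ => φ.WF S ∧ ψ.WF S
  | .ex _ φ => φ.WF S

/-- The variables of a list of symbols. -/
def vars (w : List Sym) : List ℕ := w.filterMap fun s => Sum.casesOn s some fun _ => none

/-- The free variables of a formula. -/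
def Fm.fv : Fm → List ℕ
  | .atom _ w => vars w
  | .neg φ => φ.fv
  | .and φ ψ => φ.fv ++ ψ.fv
  | .ex i φ => φ.fv.filter fun j => j ≠ i

/-- A token in the Polish notation of a formula. -/
abbrev Tok : Type := ℕ × ℕ × List Sym

/-- The Polish notation of a formula. -/
def Fm.toks : Fm → List Tok
  | .atom r w => [(0, r, w)]
  | .neg φ => (1, 0, []) :: φ.toks
  | .and φ ψ => (2, 0, []) :: (φ.toks ++ ψ.toks)
  | .ex i φ => (3, i, []) :: φ.toks

/-- The Gödel number of a formula. -/
def Fm.code (φ : Fm) : ℕ := encode φ.toks

/-- A structure for the signature whose universe is a set of natural numbers. -/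
structure Str (S : Sig) where
  dom : Set ℕ
  nonempty : dom.Nonempty
  R : ℕ → List ℕ → Prop
  F : ℕ → List ℕ → ℕ
  closed : ∀ f k xs, S.fn f = some k → xs.length = k → (∀ x ∈ xs, x ∈ dom) → F f xs ∈ dom

variable {S : Sig}

/-- The values of the terms whose concatenation is the given list. -/
def vals (A : Str S) (v : ℕ → ℕ) : List Sym → List ℕ
  | [] => []
  | Sum.inl i :: w => v i :: vals A v w
  | Sum.inr f :: w => A.F f ((vals A v w).take ((S.fn f).getD 0)) ::
      (vals A v w).drop ((S.fn f).getD 0)

/-- Truth of an atomic formula. -/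
def atomTrue (A : Str S) (v : ℕ → ℕ) : ℕ → List Sym → Prop
  | 0, w => ∃ a, vals A v w = [a, a]
  | r + 1, w => A.R r (vals A v w)

/-- Satisfaction. -/
def Sat (A : Str S) : Fm → (ℕ → ℕ) → Prop
  | .atom r w, v => atomTrue A v r w
  | .neg φ, v => ¬ Sat A φ v
  | .and φ ψ, v => Sat A φ v ∧ Sat A ψ v
  | .ex i φ, v => ∃ a ∈ A.dom, Sat A φ (Function.update v i a)

/-- The atomic diagram: the true atomic sentences in which elements of the structure are used as
names of themselves (the symbol `Sum.inl a` is now the name of the element `a`). -/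
def atDiag (A : Str S) : Set (ℕ × List Sym) :=
  {p | atomOK S p ∧ (∀ a ∈ vars p.2, a ∈ A.dom) ∧ atomTrue A id p.1 p.2}

/-- A structure is computable if its universe and its atomic diagram are computable. -/
def Str.IsComputable (A : Str S) : Prop :=
  (ComputablePred fun a : ℕ => a ∈ A.dom) ∧ ComputablePred fun p : ℕ × List Sym => p ∈ atDiag A

open Classical in
/-- The theory of a structure: the characteristic function of the set of the Gödel numbers of the
sentences (well-formed formulas without free variables) which are true in the structure. -/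
noncomputable def theory (A : Str S) (n : ℕ) : Bool :=
  decide (∃ φ : Fm, φ.code = n ∧ φ.WF S ∧ φ.fv = [] ∧ ∀ v : ℕ → ℕ, (∀ i, v i ∈ A.dom) → Sat A φ v)

/-! ### Basic facts -/

/-- replacing variables by names of elements -/
def sb (v : ℕ → ℕ) (s : Sym) : Sym := Sum.casesOn s (fun i => Sum.inl (v i)) Sum.inr

theorem vals_sb (A : Str S) (v : ℕ → ℕ) (w : List Sym) :
    vals A id (w.map (sb v)) = vals A v w := by
  induction w with
  | nil => rfl
  | cons s w ih =>
    rcases s with i | f
    · simp only [List.map_cons, sb, vals, ih, id]
    · simp only [List.map_cons, sb, vals, ih]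

theorem cnt_sb (v : ℕ → ℕ) (w : List Sym) : cnt S (w.map (sb v)) = cnt S w := by
  induction w with
  | nil => rfl
  | cons s w ih =>
    unfold cnt at ih ⊢
    rcases s with i | f
    · simp only [List.map_cons, sb, List.foldr_cons, ih, cstep]
    · simp only [List.map_cons, sb, List.foldr_cons, ih, cstep]

theorem atomOK_sb (v : ℕ → ℕ) (r : ℕ) (w : List Sym) :
    atomOK S (r, w.map (sb v)) ↔ atomOK S (r, w) := by
  simp only [atomOK, cnt_sb]

theorem vars_sb (v : ℕ → ℕ) (w : List Sym) : vars (w.map (sb v)) = (vars w).map v := by
  induction w with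
  | nil => rfl
  | cons s w ih =>
    unfold vars at ih ⊢
    rcases s with i | f
    · simp only [List.map_cons, sb, List.filterMap_cons, ih]
    · simp only [List.map_cons, sb, List.filterMap_cons, ih]

theorem atomTrue_iff (A : Str S) (v : ℕ → ℕ) (hv : ∀ i, v i ∈ A.dom) (r : ℕ) (w : List Sym)
    (h : atomOK S (r, w)) : atomTrue A v r w ↔ (r, w.map (sb v)) ∈ atDiag A := by
  have h1 : atomTrue A id r (w.map (sb v)) ↔ atomTrue A v r w := by
    cases r with
    | zero => simp only [atomTrue, vals_sb]
    | succ r => simp only [atomTrue, vals_sb]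
  constructor
  · intro h2
    refine ⟨(atomOK_sb v r w).2 h, ?_, h1.2 h2⟩
    intro a ha
    simp only [vars_sb, List.mem_map] at ha
    obtain ⟨i, -, rfl⟩ := ha
    exact hv i
  · intro h2
    exact h1.1 h2.2.2

theorem vals_congr (A : Str S) (v v' : ℕ → ℕ) (w : List Sym) (h : ∀ i ∈ vars w, v i = v' i) :
    vals A v w = vals A v' w := by
  rw [← vals_sb A v, ← vals_sb A v']
  congr 1
  refine List.map_congr_left fun s hs => ?_
  rcases s with i | f
  · simp only [sb]
    rw [h i]
    exact List.mem_filterMap.2 ⟨Sum.inl i, hs, rfl⟩
  · rfl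

theorem Sat_congr (A : Str S) (φ : Fm) : ∀ v v' : ℕ → ℕ, (∀ i ∈ φ.fv, v i = v' i) →
    (Sat A φ v ↔ Sat A φ v') := by
  induction φ with
  | atom r w =>
    intro v v' h
    have := vals_congr A v v' w h
    cases r with
    | zero => simp only [Sat, atomTrue, this]
    | succ r => simp only [Sat, atomTrue, this]
  | neg φ ih => intro v v' h; exact not_congr (ih v v' h)
  | and φ ψ ih1 ih2 =>
    intro v v' h
    simp only [Fm.fv, List.mem_append] at h
    exact and_congr (ih1 v v' fun i hi => h i (Or.inl hi)) (ih2 v v' fun i hi => h i (Or.inr hi))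
  | ex i φ ih =>
    intro v v' h
    simp only [Sat]
    refine exists_congr fun a => and_congr Iff.rfl (ih _ _ fun j hj => ?_)
    by_cases hji : j = i
    · subst hji; simp
    · rw [Function.update_of_ne hji, Function.update_of_ne hji]
      refine h j ?_
      simp only [Fm.fv, List.mem_filter]
      exact ⟨hj, by simpa using hji⟩

end Pool.Agent.X227.TD
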